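import Pool.Agent.MP_c1891a_nt.H43.Spec

/-
A common non-constant point of two monomial pull-backs forces a bounded monomial relation.
-/

namespace Pool.Agent.MP_c1891a_nt.H43

open Finset

open Classical in
/-- nonzero complex numbers written additively. -/
noncomputable def clsLg (z : ℂ) : Additive ℂˣ :=
  if h : z = 0 then 0 else Additive.ofMul (Units.mk0 z h)

lemma cls_lg_mul {x y : ℂ} (hx : x ≠ 0) (hy : y ≠ 0) : clsLg (x * y) = clsLg x + clsLg y := by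
  simp only [clsLg, dif_neg hx, dif_neg hy, dif_neg (mul_ne_zero hx hy), ← ofMul_mul]
  congr 1
  exact Units.ext rfl

lemma cls_lg_zpow {x : ℂ} (hx : x ≠ 0) (n : ℤ) : clsLg (x ^ n) = n • clsLg x := by
  simp only [clsLg, dif_neg hx, dif_neg (zpow_ne_zero n hx), ← ofMul_zpow]
  congr 1
  exact Units.ext (by simp)

lemma cls_lg_inj {x y : ℂ} (hx : x ≠ 0) (hy : y ≠ 0) (h : clsLg x = clsLg y) : x = y := by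
  simp only [clsLg, dif_neg hx, dif_neg hy] at h
  exact congrArg Units.val (Additive.ofMul.injective h)

lemma cls_tor_ne {x : ℂ} (h : Tor x) : x ≠ 0 := by
  obtain ⟨n, hn, e⟩ := h
  rintro rfl
  rw [zero_pow hn.ne'] at e
  exact zero_ne_one e

lemma cls_lg_tor {x : ℂ} (h : Tor x) : IsOfFinAddOrder (clsLg x) := by
  have hx := cls_tor_ne h
  obtain ⟨n, hn, e⟩ := h
  refine isOfFinAddOrder_iff_nsmul_eq_zero.2 ⟨n, hn, ?_⟩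
  rw [← natCast_zsmul, ← cls_lg_zpow hx, zpow_natCast, e]
  simp [clsLg]

/-- what one valuation says about the data. -/
def ClsR (φ ψ : Edge) (η : Fin 4 → ℂ) (v w : Fin 4 → ℤ) : Prop :=
  φ.I * ψ.J * (w 2 * (φ.a * v 0 + φ.b * v 1) - v 2 * (φ.a * w 0 + φ.b * w 1)) =
    -(ψ.I * φ.J * (v 0 * w 1 - v 1 * w 0) * ψ.b) ∧
  φ.I * ψ.J * (w 3 * (φ.a * v 0 + φ.b * v 1) - v 3 * (φ.a * w 0 + φ.b * w 1)) =
    ψ.I * φ.J * (v 0 * w 1 - v 1 * w 0) * ψ.a ∧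
  ∀ r s : ℤ, r * (φ.a * v 0 + φ.b * v 1) = s * (ψ.a * v 2 + ψ.b * v 3) →
    r * (φ.a * w 0 + φ.b * w 1) = s * (ψ.a * w 2 + ψ.b * w 3) →
    φ.ρ ^ r * (η 2 ^ ψ.a * η 3 ^ ψ.b) ^ s = ψ.ρ ^ s * (η 0 ^ φ.a * η 1 ^ φ.b) ^ r

lemma cls_alg {A : Type} [AddCommGroup A] (ρ₁ ρ₂ σ₁ σ₂ : A)
    (a₁ b₁ a₂ b₂ k₁ k₂ c₁ d₁ c₂ d₂ l₁ l₂ : ℤ) :
    ∃ (m : ℕ) (a b c d : ℤ), ∀ (h₀ h₁ h₂ h₃ : A) (v₀ v₁ v₂ v₃ w₀ w₁ w₂ w₃ : ℤ),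
      IsOfFinAddOrder h₀ → IsOfFinAddOrder h₁ → IsOfFinAddOrder h₂ → IsOfFinAddOrder h₃ →
      k₁ ≠ 0 → l₁ ≠ 0 → a₁ * d₁ ≠ b₁ * c₁ → v₀ * w₁ ≠ v₁ * w₀ → v₂ * w₃ ≠ v₃ * w₂ →
      k₁ * (w₂ * (a₁ * v₀ + b₁ * v₁) - v₂ * (a₁ * w₀ + b₁ * w₁)) =
        -(k₂ * (v₀ * w₁ - v₁ * w₀) * b₂) →
      k₁ * (w₃ * (a₁ * v₀ + b₁ * v₁) - v₃ * (a₁ * w₀ + b₁ * w₁)) =
        k₂ * (v₀ * w₁ - v₁ * w₀) * a₂ →
      l₁ * (w₂ * (c₁ * v₀ + d₁ * v₁) - v₂ * (c₁ * w₀ + d₁ * w₁)) =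
        -(l₂ * (v₀ * w₁ - v₁ * w₀) * d₂) →
      l₁ * (w₃ * (c₁ * v₀ + d₁ * v₁) - v₃ * (c₁ * w₀ + d₁ * w₁)) =
        l₂ * (v₀ * w₁ - v₁ * w₀) * c₂ →
      (∀ r s : ℤ, r * (a₁ * v₀ + b₁ * v₁) = s * (a₂ * v₂ + b₂ * v₃) →
        r * (a₁ * w₀ + b₁ * w₁) = s * (a₂ * w₂ + b₂ * w₃) →
        r • ρ₁ + s • (a₂ • h₂ + b₂ • h₃) = s • ρ₂ + r • (a₁ • h₀ + b₁ • h₁)) →
      (∀ r s : ℤ, r * (c₁ * v₀ + d₁ * v₁) = s * (c₂ * v₂ + d₂ * v₃) →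
        r * (c₁ * w₀ + d₁ * w₁) = s * (c₂ * w₂ + d₂ * w₃) →
        r • σ₁ + s • (c₂ • h₂ + d₂ • h₃) = s • σ₂ + r • (c₁ • h₀ + d₁ • h₁)) →
      0 < m ∧ m * v₂ = a * v₀ + b * v₁ ∧ m * w₂ = a * w₀ + b * w₁ ∧
        m * v₃ = c * v₀ + d * v₁ ∧ m * w₃ = c * w₀ + d * w₁ ∧
        (m : ℤ) • h₂ = a • h₀ + b • h₁ ∧ (m : ℤ) • h₃ = c • h₀ + d • h₁ := by
  obtain ⟨δ, hδ⟩ : ∃ δ, δ = a₂ * d₂ - b₂ * c₂ := ⟨_, rfl⟩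
  obtain ⟨n, hn⟩ : ∃ n, n = k₁ * l₁ * (a₁ * d₁ - b₁ * c₁) := ⟨_, rfl⟩
  obtain ⟨g₁, hg₁⟩ : ∃ g, g = l₂ * d₂ * k₁ * a₁ - k₂ * b₂ * l₁ * c₁ := ⟨_, rfl⟩
  obtain ⟨g₂, hg₂⟩ : ∃ g, g = l₂ * d₂ * k₁ * b₁ - k₂ * b₂ * l₁ * d₁ := ⟨_, rfl⟩
  obtain ⟨g₃, hg₃⟩ : ∃ g, g = k₂ * a₂ * l₁ * c₁ - l₂ * c₂ * k₁ * a₁ := ⟨_, rfl⟩
  obtain ⟨g₄, hg₄⟩ : ∃ g, g = k₂ * a₂ * l₁ * d₁ - l₂ * c₂ * k₁ * b₁ := ⟨_, rfl⟩
  obtain ⟨x, hx⟩ : ∃ x, x = n • ρ₂ - (l₂ * k₁ * δ) • ρ₁ := ⟨_, rfl⟩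
  obtain ⟨y, hy⟩ : ∃ y, y = n • σ₂ - (k₂ * l₁ * δ) • σ₁ := ⟨_, rfl⟩
  obtain ⟨D, hD⟩ : ∃ D : ℤ, D = δ * δ * n * addOrderOf x * addOrderOf y := ⟨_, rfl⟩
  refine ⟨(D * n).natAbs, D * g₁, D * g₂, D * g₃, D * g₄, ?_⟩
  intro h₀ h₁ h₂ h₃ v₀ v₁ v₂ v₃ w₀ w₁ w₂ w₃ t₀ t₁ t₂ t₃ hk hl he hΔ hΔ' R₁ R₂ R₃ R₄ H₁ H₂
  have hΔ0 := sub_ne_zero.2 hΔ
  have hn0 : n ≠ 0 := hn ▸ mul_ne_zero (mul_ne_zero hk hl) (sub_ne_zero.2 he)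
  have e₁ : n * v₂ = g₁ * v₀ + g₂ * v₁ := mul_left_cancel₀ hΔ0 (by
    rw [hn, hg₁, hg₂]
    linear_combination l₁ * (c₁ * v₀ + d₁ * v₁) * R₁ - k₁ * (a₁ * v₀ + b₁ * v₁) * R₃)
  have e₂ : n * w₂ = g₁ * w₀ + g₂ * w₁ := mul_left_cancel₀ hΔ0 (by
    rw [hn, hg₁, hg₂]
    linear_combination l₁ * (c₁ * w₀ + d₁ * w₁) * R₁ - k₁ * (a₁ * w₀ + b₁ * w₁) * R₃)
  have e₃ : n * v₃ = g₃ * v₀ + g₄ * v₁ := mul_left_cancel₀ hΔ0 (by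
    rw [hn, hg₃, hg₄]
    linear_combination l₁ * (c₁ * v₀ + d₁ * v₁) * R₂ - k₁ * (a₁ * v₀ + b₁ * v₁) * R₄)
  have e₄ : n * w₃ = g₃ * w₀ + g₄ * w₁ := mul_left_cancel₀ hΔ0 (by
    rw [hn, hg₃, hg₄]
    linear_combination l₁ * (c₁ * w₀ + d₁ * w₁) * R₂ - k₁ * (a₁ * w₀ + b₁ * w₁) * R₄)
  have hδ0 : δ ≠ 0 := by
    intro h0
    have : n * n * (v₂ * w₃ - v₃ * w₂) = k₂ * l₂ * δ * n * (v₀ * w₁ - v₁ * w₀) :=
      calc _ = (n * v₂) * (n * w₃) - (n * v₃) * (n * w₂) := by ring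
        _ = _ := by rw [e₁, e₂, e₃, e₄, hδ, hn, hg₁, hg₂, hg₃, hg₄]; ring
    rw [h0] at this
    exact mul_ne_zero (mul_ne_zero hn0 hn0) (sub_ne_zero.2 hΔ') (by simpa using this)
  have K₁ := H₁ (l₂ * k₁ * δ) n
    (by rw [mul_add n, mul_left_comm n, mul_left_comm n, e₁, e₃, hδ, hg₁, hg₂, hg₃, hg₄]; ring)
    (by rw [mul_add n, mul_left_comm n, mul_left_comm n, e₂, e₄, hδ, hg₁, hg₂, hg₃, hg₄]; ring)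
  have K₂ := H₂ (k₂ * l₁ * δ) n
    (by rw [mul_add n, mul_left_comm n, mul_left_comm n, e₁, e₃, hδ, hg₁, hg₂, hg₃, hg₄]; ring)
    (by rw [mul_add n, mul_left_comm n, mul_left_comm n, e₂, e₄, hδ, hg₁, hg₂, hg₃, hg₄]; ring)
  obtain ⟨τ₁, hτ₁⟩ : ∃ τ, τ = n • h₂ + (-g₁) • h₀ + (-g₂) • h₁ := ⟨_, rfl⟩
  obtain ⟨τ₂, hτ₂⟩ : ∃ τ, τ = n • h₃ + (-g₃) • h₀ + (-g₄) • h₁ := ⟨_, rfl⟩
  have s₁ : IsOfFinAddOrder τ₁ := hτ₁ ▸ (t₂.zsmul.add t₀.zsmul).add t₁.zsmul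
  have s₂ : IsOfFinAddOrder τ₂ := hτ₂ ▸ (t₃.zsmul.add t₀.zsmul).add t₁.zsmul
  have ex : x = a₂ • τ₁ + b₂ • τ₂ := by
    rw [hx, hτ₁, hτ₂, hg₁, hg₂, hg₃, hg₄]
    rw [hδ] at K₁ ⊢
    linear_combination (norm := module) -K₁
  have ey : y = c₂ • τ₁ + d₂ • τ₂ := by
    rw [hy, hτ₁, hτ₂, hg₁, hg₂, hg₃, hg₄]
    rw [hδ] at K₂ ⊢
    linear_combination (norm := module) -K₂
  have ox : 0 < addOrderOf x := IsOfFinAddOrder.addOrderOf_pos (ex ▸ s₁.zsmul.add s₂.zsmul)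
  have oy : 0 < addOrderOf y := IsOfFinAddOrder.addOrderOf_pos (ey ▸ s₁.zsmul.add s₂.zsmul)
  have zx : (addOrderOf x : ℤ) • x = 0 := by rw [natCast_zsmul, addOrderOf_nsmul_eq_zero]
  have zy : (addOrderOf y : ℤ) • y = 0 := by rw [natCast_zsmul, addOrderOf_nsmul_eq_zero]
  generalize addOrderOf x = o₁ at *
  generalize addOrderOf y = o₂ at *
  have hp : 0 < D * n := by
    have : D * n = (δ * n) ^ 2 * (o₁ * o₂) := by rw [hD]; ring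
    rw [this]
    have := mul_ne_zero hδ0 hn0
    positivity
  have hm : ((D * n).natAbs : ℤ) = D * n := Int.natAbs_of_nonneg hp.le
  have z₁ : D • τ₁ = 0 := by
    rw [ex] at zx
    rw [ey] at zy
    rw [hD, hδ]
    linear_combination (norm := module) ((a₂ * d₂ - b₂ * c₂) * n * o₂ * d₂) • zx -
      ((a₂ * d₂ - b₂ * c₂) * n * o₁ * b₂) • zy
  have z₂ : D • τ₂ = 0 := by
    rw [ex] at zx
    rw [ey] at zy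
    rw [hD, hδ]
    linear_combination (norm := module) ((a₂ * d₂ - b₂ * c₂) * n * o₁ * a₂) • zy -
      ((a₂ * d₂ - b₂ * c₂) * n * o₂ * c₂) • zx
  rw [hτ₁] at z₁
  rw [hτ₂] at z₂
  rw [hm]
  refine ⟨Int.natAbs_pos.2 hp.ne', by linear_combination D * e₁, by linear_combination D * e₂,
    by linear_combination D * e₃, by linear_combination D * e₄, ?_, ?_⟩
  · linear_combination (norm := module) z₁
  · linear_combination (norm := module) z₂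

lemma cls_quad (φ ψ φ' ψ' : Edge) : ∃ B₀ : ℕ, ∀ B, B₀ ≤ B →
    ∀ (η : Fin 4 → ℂ) (v w : Fin 4 → ℤ), (∀ i, Tor (η i)) →
      φ.ρ ≠ 0 → ψ.ρ ≠ 0 → φ'.ρ ≠ 0 → ψ'.ρ ≠ 0 → φ.I * ψ.J ≠ 0 → φ'.I * ψ'.J ≠ 0 →
      φ.a * φ'.b ≠ φ.b * φ'.a → v 0 * w 1 ≠ v 1 * w 0 → v 2 * w 3 ≠ v 3 * w 2 →
      ClsR φ ψ η v w → ClsR φ' ψ' η v w → Sym B η v w := by
  obtain ⟨m, a, b, c, d, H⟩ := cls_alg (clsLg φ.ρ) (clsLg ψ.ρ) (clsLg φ'.ρ) (clsLg ψ'.ρ)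
    φ.a φ.b ψ.a ψ.b (φ.I * ψ.J) (ψ.I * φ.J) φ'.a φ'.b ψ'.a ψ'.b (φ'.I * ψ'.J) (ψ'.I * φ'.J)
  refine ⟨m + a.natAbs + b.natAbs + c.natAbs + d.natAbs, ?_⟩
  intro B hB η v w ht r₁ r₂ r₃ r₄ k₁ k₂ he hΔ hΔ' R R'
  have n := fun i => cls_tor_ne (ht i)
  have cv : ∀ (φ ψ : Edge) (r s : ℤ), φ.ρ ≠ 0 → ψ.ρ ≠ 0 →
      φ.ρ ^ r * (η 2 ^ ψ.a * η 3 ^ ψ.b) ^ s = ψ.ρ ^ s * (η 0 ^ φ.a * η 1 ^ φ.b) ^ r →
      r • clsLg φ.ρ + s • (ψ.a • clsLg (η 2) + ψ.b • clsLg (η 3)) =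
        s • clsLg ψ.ρ + r • (φ.a • clsLg (η 0) + φ.b • clsLg (η 1)) := by
    intro φ ψ r s h₁ h₂ e
    have z := fun i k => zpow_ne_zero k (n i)
    have := congrArg clsLg e
    rwa [cls_lg_mul (zpow_ne_zero _ h₁) (zpow_ne_zero _ (mul_ne_zero (z _ _) (z _ _))),
      cls_lg_mul (zpow_ne_zero _ h₂) (zpow_ne_zero _ (mul_ne_zero (z _ _) (z _ _))),
      cls_lg_zpow h₁, cls_lg_zpow h₂, cls_lg_zpow (mul_ne_zero (z _ _) (z _ _)),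
      cls_lg_zpow (mul_ne_zero (z _ _) (z _ _)), cls_lg_mul (z _ _) (z _ _),
      cls_lg_mul (z _ _) (z _ _), cls_lg_zpow (n _), cls_lg_zpow (n _), cls_lg_zpow (n _),
      cls_lg_zpow (n _)] at this
  obtain ⟨p₀, p₁, p₂, p₃, p₄, p₅, p₆⟩ := H _ _ _ _ _ _ _ _ _ _ _ _ (cls_lg_tor (ht 0))
    (cls_lg_tor (ht 1)) (cls_lg_tor (ht 2)) (cls_lg_tor (ht 3)) k₁ k₂ he hΔ hΔ' R.1 R.2.1 R'.1
    R'.2.1 (fun r s x y => cv φ ψ r s r₁ r₂ (R.2.2 r s x y))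
    (fun r s x y => cv φ' ψ' r s r₃ r₄ (R'.2.2 r s x y))
  have fin : ∀ (i : Fin 4) (a b : ℤ), (m : ℤ) • clsLg (η i) = a • clsLg (η 0) + b • clsLg (η 1) →
      η i ^ m = η 0 ^ a * η 1 ^ b := fun i a b e => by
    have z := fun i k => zpow_ne_zero k (n i)
    refine cls_lg_inj (pow_ne_zero _ (n i)) (mul_ne_zero (z _ _) (z _ _)) ?_
    rw [← zpow_natCast, cls_lg_mul (z _ _) (z _ _), cls_lg_zpow (n _), cls_lg_zpow (n _),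
      cls_lg_zpow (n _), e]
  refine ⟨m, a, b, c, d, p₀, by omega, ?_, ?_, ?_, ?_, p₁, p₂, p₃, p₄, fin _ _ _ p₅, fin _ _ _ p₆⟩
  all_goals
    rw [Int.abs_eq_natAbs]
    omega

section val
variable {K Γ : Type} [Field K] [Algebra ℂ K] [LinearOrderedCommGroupWithZero Γ]
  {V : Valuation K Γ}

lemma cls_one {a : K} (ha : V (a - 1) < 1) : V a = 1 := by
  simpa using V.map_one_add_of_lt ha

lemma cls_pow (hc : ∀ c : ℂ, c ≠ 0 → V (algebraMap ℂ K c) = 1) {a : K} (ha : V (a - 1) < 1)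
    {r : ℤ} (hr : r ≠ 0) : V (a ^ r - 1) = V (a - 1) := by
  have h1 := cls_one ha
  have h2 : ∀ n : ℕ, V (a ^ n - 1) < 1 := fun n => by
    induction n with
    | zero => simp
    | succ n ih =>
      rw [show a ^ (n + 1) - 1 = a * (a ^ n - 1) + (a - 1) by ring]
      exact V.map_add_lt (by rwa [map_mul, h1, one_mul]) ha
  have h3 : ∀ n : ℕ, V (∑ i ∈ range n, a ^ i - n) < 1 := fun n => by
    induction n with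
    | zero => simp
    | succ n ih =>
      rw [show ∑ i ∈ range (n + 1), a ^ i - ((n + 1 : ℕ) : K) =
        (∑ i ∈ range n, a ^ i - n) + (a ^ n - 1) by rw [sum_range_succ]; push_cast; ring]
      exact V.map_add_lt ih (h2 n)
  have h4 : ∀ n : ℕ, n ≠ 0 → V (a ^ n - 1) = V (a - 1) := fun n hn => by
    have e : V (n : K) = 1 := by simpa using hc n (Nat.cast_ne_zero.2 hn)
    have := V.map_add_eq_of_lt_left (x := (n : K)) (y := ∑ i ∈ range n, a ^ i - n)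
      (by rw [e]; exact h3 n)
    rw [add_sub_cancel, e] at this
    rw [← geom_sum_mul, map_mul, this, one_mul]
  have ha0 : a ≠ 0 := by
    rintro rfl
    simp at h1
  obtain ⟨n, rfl | rfl⟩ := Int.eq_nat_or_neg r
  · rw [zpow_natCast, h4 n (by simpa using hr)]
  · rw [show a ^ (-(n : ℤ)) - 1 = -((a ^ n)⁻¹ * (a ^ n - 1)) by
      rw [zpow_neg, zpow_natCast]; field_simp; ring, V.map_neg, map_mul, h4 n (by simpa using hr)]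
    simp [h1]

lemma cls_red (hc : ∀ c : ℂ, c ≠ 0 → V (algebraMap ℂ K c) = 1) {u₁ u₂ : K} {ρ₁ ρ₂ θ₁ θ₂ : ℂ}
    (n₁ : ρ₁ ≠ 0) (n₂ : ρ₂ ≠ 0) (m₁ : θ₁ ≠ 0) (m₂ : θ₂ ≠ 0)
    (h₁ : V (u₁ - algebraMap ℂ K ρ₁) < 1) (h₂ : V (u₂ - algebraMap ℂ K ρ₂) < 1) {r s : ℤ}
    (e : u₁ ^ r * algebraMap ℂ K θ₁ = u₂ ^ s * algebraMap ℂ K θ₂) :
    ρ₁ ^ r * θ₁ = ρ₂ ^ s * θ₂ ∧
      (r ≠ 0 → s ≠ 0 → V (u₁ - algebraMap ℂ K ρ₁) = V (u₂ - algebraMap ℂ K ρ₂)) := by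
  have q : ∀ (u : K) (ρ : ℂ), ρ ≠ 0 → ∃ a, u = algebraMap ℂ K ρ * a ∧
      V (u - algebraMap ℂ K ρ) = V (a - 1) := fun u ρ h => by
    have h' : algebraMap ℂ K ρ ≠ 0 := by simpa using h
    refine ⟨u / algebraMap ℂ K ρ, by field_simp, ?_⟩
    rw [show u - algebraMap ℂ K ρ = algebraMap ℂ K ρ * (u / algebraMap ℂ K ρ - 1) by field_simp,
      map_mul, hc ρ h, one_mul]
  obtain ⟨a₁, rfl, k₁⟩ := q u₁ ρ₁ n₁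
  obtain ⟨a₂, rfl, k₂⟩ := q u₂ ρ₂ n₂
  rw [k₁] at h₁ ⊢
  rw [k₂] at h₂ ⊢
  have lt : ∀ (a : K) (r : ℤ), V (a - 1) < 1 → V (a ^ r - 1) < 1 := fun a r h => by
    by_cases hr : r = 0
    · simp [hr]
    · rwa [cls_pow hc h hr]
  have c₁ := mul_ne_zero (zpow_ne_zero r n₁) m₁
  have c₂ := mul_ne_zero (zpow_ne_zero s n₂) m₂
  have e' : algebraMap ℂ K (ρ₁ ^ r * θ₁) * a₁ ^ r = algebraMap ℂ K (ρ₂ ^ s * θ₂) * a₂ ^ s := by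
    simp only [map_mul, map_zpow₀, mul_zpow] at e ⊢
    linear_combination e
  have e₁ : ρ₁ ^ r * θ₁ = ρ₂ ^ s * θ₂ := by
    by_contra hne
    have := hc _ (sub_ne_zero.2 hne)
    rw [map_sub, show algebraMap ℂ K (ρ₁ ^ r * θ₁) - algebraMap ℂ K (ρ₂ ^ s * θ₂) =
      algebraMap ℂ K (ρ₂ ^ s * θ₂) * (a₂ ^ s - 1) - algebraMap ℂ K (ρ₁ ^ r * θ₁) * (a₁ ^ r - 1) by
        linear_combination e'] at this
    refine ne_of_lt (V.map_sub_lt ?_ ?_) this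
    · rw [map_mul V, hc _ c₂, one_mul]
      exact lt _ _ h₂
    · rw [map_mul V, hc _ c₁, one_mul]
      exact lt _ _ h₁
  refine ⟨e₁, fun hr hs => ?_⟩
  rw [e₁] at e'
  rw [← cls_pow hc h₁ hr, ← cls_pow hc h₂ hs, 
    mul_left_cancel₀ ((map_ne_zero (algebraMap ℂ K)).2 c₂) e']

lemma cls_mon {G : Type} [CommGroupWithZero G] {p q : G} (m n k : ℤ) :
    (p ^ m * q ^ n) ^ k = p ^ (k * m) * q ^ (k * n) := by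
  rw [mul_zpow, ← zpow_mul, ← zpow_mul, mul_comm m, mul_comm n]

lemma cls_mon_mul {G : Type} [CommGroupWithZero G] {p q : G} (hp : p ≠ 0) (hq : q ≠ 0)
    (m n m' n' : ℤ) : p ^ m * q ^ n * (p ^ m' * q ^ n') = p ^ (m + m') * q ^ (n + n') := by
  rw [zpow_add₀ hp, zpow_add₀ hq, mul_mul_mul_comm]

lemma cls_root {x : Γ} {k : ℤ} (hk : k ≠ 0) (h : x ^ k = 1) : x = 1 := by
  obtain ⟨n, rfl | rfl⟩ := Int.eq_nat_or_neg k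
  · exact (pow_eq_one_iff_of_nonneg zero_le (by simpa using hk)).1 (by simpa using h)
  · exact (pow_eq_one_iff_of_nonneg zero_le (by simpa using hk)).1 (by simpa using h)

lemma cls_minor {P Q : Γ} (hP : P ≠ 0) (hQ : Q ≠ 0) (h : P ≠ 1 ∨ Q ≠ 1) {m n m' n' : ℤ}
    (e : P ^ m * Q ^ n = 1) (e' : P ^ m' * Q ^ n' = 1) : m * n' = n * m' := by
  by_contra hne
  have k : ∀ a b : ℤ, P ^ (a * m + b * m') * Q ^ (a * n + b * n') = 1 := fun a b => by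
    rw [← cls_mon_mul hP hQ, ← cls_mon, ← cls_mon, e, e']
    simp
  have hd := sub_ne_zero.2 hne
  rcases h with h | h
  · refine h (cls_root hd ?_)
    have := k n' (-n)
    rwa [show n' * n + -n * n' = 0 by ring, show n' * m + -n * m' = m * n' - n * m' by ring,
      zpow_zero, mul_one] at this
  · refine h (cls_root hd ?_)
    have := k (-m') m
    rwa [show -m' * m + m * m' = 0 by ring, show -m' * n + m * n' = m * n' - n * m' by ring,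
      zpow_zero, one_mul] at this

lemma cls_chi {p q : K} (hp : p ≠ 0) (hq : q ≠ 0) (η η' : ℂ) (v w v' w' a b : ℤ) :
    (algebraMap ℂ K η * p ^ v * q ^ w) ^ a * (algebraMap ℂ K η' * p ^ v' * q ^ w') ^ b =
      algebraMap ℂ K (η ^ a * η' ^ b) * (p ^ (a * v + b * v') * q ^ (a * w + b * w')) := by
  rw [← cls_mon_mul hp hq, ← cls_mon, ← cls_mon, map_mul, map_zpow₀, map_zpow₀, mul_assoc,
    mul_assoc (algebraMap ℂ K η'), mul_zpow, mul_zpow (algebraMap ℂ K η'), ← mul_assoc,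
    mul_mul_mul_comm, mul_assoc]

/-- the output of the local analysis at one point. -/
def ClsL (V : Valuation K Γ) (φ : Edge) (x y : K) : Prop :=
  (φ.a * φ.b' - φ.b * φ.a' = 1 ∧ φ.ρ ≠ 0 ∧ φ.I ≠ 0 ∧ φ.J ≠ 0) ∧
    V (x ^ φ.a * y ^ φ.b - algebraMap ℂ K φ.ρ) < 1 ∧
    V (x ^ φ.a * y ^ φ.b - algebraMap ℂ K φ.ρ) ^ φ.I = V (x ^ φ.a' * y ^ φ.b') ^ φ.J

lemma cls_loc (hc : ∀ c : ℂ, c ≠ 0 → V (algebraMap ℂ K c) = 1) {p q : K} (hp : p ≠ 0) (hq : q ≠ 0)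
    (hV : V p ≠ 1 ∨ V q ≠ 1) {η : Fin 4 → ℂ} {v w : Fin 4 → ℤ} (hη : ∀ i, η i ≠ 0)
    (hΔ : v 0 * w 1 ≠ v 1 * w 0) (hΔ' : v 2 * w 3 ≠ v 3 * w 2) {φ ψ : Edge}
    (h₁ : ClsL V φ (algebraMap ℂ K (η 0) * p ^ v 0 * q ^ w 0)
      (algebraMap ℂ K (η 1) * p ^ v 1 * q ^ w 1))
    (h₂ : ClsL V ψ (algebraMap ℂ K (η 2) * p ^ v 2 * q ^ w 2)
      (algebraMap ℂ K (η 3) * p ^ v 3 * q ^ w 3)) :
    ClsR φ ψ η v w ∧ V p ^ (φ.a * v 0 + φ.b * v 1) * V q ^ (φ.a * w 0 + φ.b * w 1) = 1 := by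
  obtain ⟨⟨d₁, r₁, -, -⟩, l₁, e₁⟩ := h₁
  obtain ⟨⟨d₂, r₂, -, -⟩, l₂, e₂⟩ := h₂
  have hP : V p ≠ 0 := by simpa using hp
  have hQ : V q ≠ 0 := by simpa using hq
  have z : ∀ i j a b, η i ^ (a : ℤ) * η j ^ (b : ℤ) ≠ 0 := fun i j a b =>
    mul_ne_zero (zpow_ne_zero _ (hη i)) (zpow_ne_zero _ (hη j))
  have vm : ∀ (c : ℂ) (m n : ℤ), c ≠ 0 →
      V (algebraMap ℂ K c * (p ^ m * q ^ n)) = V p ^ m * V q ^ n := fun c m n h => by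
    rw [map_mul, hc c h, one_mul, map_mul, map_zpow₀, map_zpow₀]
  have v1 : ∀ (u : K) (ρ : ℂ), ρ ≠ 0 → V (u - algebraMap ℂ K ρ) < 1 → V u = 1 := fun u ρ h k => by
    have := V.map_add_eq_of_lt_left (x := algebraMap ℂ K ρ) (y := u - algebraMap ℂ K ρ)
      (by rwa [hc ρ h])
    rwa [add_sub_cancel, hc ρ h] at this
  simp only [cls_chi hp hq] at l₁ l₂ e₁ e₂
  rw [vm _ _ _ (z _ _ _ _)] at e₁ e₂
  have s₁ := v1 _ _ r₁ l₁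
  have s₂ := v1 _ _ r₂ l₂
  rw [vm _ _ _ (z _ _ _ _)] at s₁ s₂
  have red := fun (r s : ℤ) (x : r * (φ.a * v 0 + φ.b * v 1) = s * (ψ.a * v 2 + ψ.b * v 3))
      (y : r * (φ.a * w 0 + φ.b * w 1) = s * (ψ.a * w 2 + ψ.b * w 3)) =>
    cls_red hc r₁ r₂ (zpow_ne_zero s (z 2 3 ψ.a ψ.b)) (zpow_ne_zero r (z 0 1 φ.a φ.b)) l₁ l₂
      (r := r) (s := s) (by
        rw [map_zpow₀ (algebraMap ℂ K) _ r, map_zpow₀ (algebraMap ℂ K) _ s, mul_zpow,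
          mul_zpow (algebraMap ℂ K _), cls_mon (p := p), cls_mon (p := p), x, y]
        ring)
  have m₁ := cls_minor hP hQ hV s₁ s₂
  obtain ⟨α, hα⟩ : ∃ α, α = φ.a * v 0 + φ.b * v 1 := ⟨_, rfl⟩
  obtain ⟨β, hβ⟩ : ∃ β, β = φ.a * w 0 + φ.b * w 1 := ⟨_, rfl⟩
  obtain ⟨α', hα'⟩ : ∃ α, α = ψ.a * v 2 + ψ.b * v 3 := ⟨_, rfl⟩
  obtain ⟨β', hβ'⟩ : ∃ β, β = ψ.a * w 2 + ψ.b * w 3 := ⟨_, rfl⟩
  have n₁ : α * α + β * β ≠ 0 := fun h => by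
    obtain ⟨x, y⟩ := mul_self_add_mul_self_eq_zero.1 h
    refine hΔ ?_
    rw [hα] at x
    rw [hβ] at y
    linear_combination (v 1 * w 0 - v 0 * w 1) * d₁ + (φ.a' * w 0 + φ.b' * w 1) * x -
      (φ.a' * v 0 + φ.b' * v 1) * y
  have x₁ : (α * α' + β * β') * α = (α * α + β * β) * α' := by
    rw [← hα, ← hβ, ← hα', ← hβ'] at m₁
    linear_combination β * m₁
  have x₂ : (α * α' + β * β') * β = (α * α + β * β) * β' := by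
    rw [← hα, ← hβ, ← hα', ← hβ'] at m₁
    linear_combination -α * m₁
  have n₂ : α * α' + β * β' ≠ 0 := fun h => by
    rw [h, zero_mul] at x₁ x₂
    have x := (mul_eq_zero.1 x₁.symm).resolve_left n₁
    have y := (mul_eq_zero.1 x₂.symm).resolve_left n₁
    refine hΔ' ?_
    rw [hα'] at x
    rw [hβ'] at y
    linear_combination (v 3 * w 2 - v 2 * w 3) * d₂ + (ψ.a' * w 2 + ψ.b' * w 3) * x -
      (ψ.a' * v 2 + ψ.b' * v 3) * y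
  have ez := (red _ _ (by rw [← hα, ← hα', x₁]) (by rw [← hβ, ← hβ', x₂])).2 n₂ n₁
  rw [ez] at e₁
  have s₃ : V p ^ (ψ.I * φ.J * (φ.a' * v 0 + φ.b' * v 1) +
        -(φ.I * ψ.J) * (ψ.a' * v 2 + ψ.b' * v 3)) *
      V q ^ (ψ.I * φ.J * (φ.a' * w 0 + φ.b' * w 1) +
        -(φ.I * ψ.J) * (ψ.a' * w 2 + ψ.b' * w 3)) = 1 := by
    rw [← cls_mon_mul hP hQ, ← cls_mon, ← cls_mon, zpow_neg, mul_inv_eq_one₀
      (zpow_ne_zero _ (mul_ne_zero (zpow_ne_zero _ hP) (zpow_ne_zero _ hQ))), 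
      zpow_mul' _ ψ.I, zpow_mul' _ φ.I, ← e₁, ← e₂, ← zpow_mul, ← zpow_mul, mul_comm φ.I]
  have m₂ := cls_minor hP hQ hV s₁ s₃
  refine ⟨⟨?_, ?_, fun r s x y => (red r s x y).1⟩, s₁⟩
  · linear_combination (-(φ.I * ψ.J) * (w 2 * (φ.a * v 0 + φ.b * v 1) -
      v 2 * (φ.a * w 0 + φ.b * w 1))) * d₂ + φ.I * ψ.J * ψ.b' * m₁ + ψ.b * m₂ -
      ψ.b * (ψ.I * φ.J) * (v 0 * w 1 - v 1 * w 0) * d₁
  · linear_combination (-(φ.I * ψ.J) * (w 3 * (φ.a * v 0 + φ.b * v 1) -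
      v 3 * (φ.a * w 0 + φ.b * w 1))) * d₂ - φ.I * ψ.J * ψ.a' * m₁ - ψ.a * m₂ +
      ψ.a * (ψ.I * φ.J) * (v 0 * w 1 - v 1 * w 0) * d₁

end val

theorem sCls (h1 : SLoc) (h2 : SVal) : SCls := by
  intro P Q hP hQ
  obtain ⟨Φ, hΦ, lΦ⟩ := h1 P hP
  obtain ⟨Ψ, hΨ, lΨ⟩ := h1 Q hQ
  choose B hB using cls_quad
  refine ⟨((Φ ×ˢ Ψ) ×ˢ (Φ ×ˢ Ψ)).sup fun t => B t.1.1 t.1.2 t.2.1 t.2.2, ?_⟩
  intro K _ _ p q hp hq hpq η v w ht hm hv hw eP eQ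
  have hη := fun i => cls_tor_ne (ht i)
  obtain ⟨hΔ, hΔ', nc⟩ := h2.2 P Q hP hQ K p q hp hq hpq η v w hη hm hv hw eP eQ
  have nz : ∀ i, algebraMap ℂ K (η i) * p ^ v i * q ^ w i ≠ 0 := fun i =>
    mul_ne_zero (mul_ne_zero (by simpa using hη i) (zpow_ne_zero _ hp)) (zpow_ne_zero _ hq)
  have key : ∀ m n : ℤ, (m ≠ 0 ∨ n ≠ 0) → ∃ φ ∈ Φ, ∃ ψ ∈ Ψ, ClsR φ ψ η v w ∧
      ∀ k : ℤ, m = k * (φ.a * v 0 + φ.b * v 1) → n ≠ k * (φ.a * w 0 + φ.b * w 1) := by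
    intro m n hmn
    obtain ⟨O, hc, hlt⟩ := h2.1 K _ (nc m n hmn)
    rw [map_mul, map_zpow₀, map_zpow₀] at hlt
    have hV : O.valuation p ≠ 1 ∨ O.valuation q ≠ 1 := by
      by_contra h
      rw [not_or, not_not, not_not] at h
      simp [h.1, h.2] at hlt
    have ne : ∀ i j, v i * w j ≠ v j * w i →
        O.valuation (algebraMap ℂ K (η i) * p ^ v i * q ^ w i) ≠ 1 ∨
          O.valuation (algebraMap ℂ K (η j) * p ^ v j * q ^ w j) ≠ 1 := fun i j hij => by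
      by_contra h
      rw [not_or, not_not, not_not] at h
      simp only [map_mul, map_zpow₀, hc _ (hη _), one_mul] at h
      exact hij ((cls_minor (by simpa using hp) (by simpa using hq) hV h.1 h.2).trans
        (mul_comm _ _))
    obtain ⟨φ, mφ, -, a₁, -, a₂⟩ := lΦ K O hc _ _ (nz 0) (nz 1) eP (ne 0 1 hΔ)
    obtain ⟨ψ, mψ, -, b₁, -, b₂⟩ := lΨ K O hc _ _ (nz 2) (nz 3) eQ (ne 2 3 hΔ')
    obtain ⟨R, s⟩ := cls_loc hc hp hq hV hη hΔ hΔ' ⟨hΦ φ mφ, a₁, a₂⟩ ⟨hΨ ψ mψ, b₁, b₂⟩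
    refine ⟨φ, mφ, ψ, mψ, R, fun k x y => ?_⟩
    rw [x, y, ← cls_mon, s] at hlt
    simp at hlt
  obtain ⟨φ, mφ, ψ, mψ, R, -⟩ := key 1 0 (by simp)
  obtain ⟨d₁, r₁, i₁, -⟩ := hΦ φ mφ
  obtain ⟨φ', mφ', ψ', mψ', R', k⟩ := key (φ.a * v 0 + φ.b * v 1) (φ.a * w 0 + φ.b * w 1) (by
    by_contra h
    rw [not_or, not_not, not_not] at h
    refine hΔ ?_
    linear_combination (v 1 * w 0 - v 0 * w 1) * d₁ + (φ.a' * w 0 + φ.b' * w 1) * h.1 -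
      (φ.a' * v 0 + φ.b' * v 1) * h.2)
  obtain ⟨d₂, r₂, i₂, -⟩ := hΦ φ' mφ'
  refine hB φ ψ φ' ψ' _ (le_sup (f := fun t : (Edge × Edge) × Edge × Edge =>
      B t.1.1 t.1.2 t.2.1 t.2.2) (b := ((φ, ψ), φ', ψ')) (by simp [*])) η v w ht r₁
    (hΨ ψ mψ).2.1 r₂ (hΨ ψ' mψ').2.1 (mul_ne_zero i₁ (hΨ ψ mψ).2.2.2)
    (mul_ne_zero i₂ (hΨ ψ' mψ').2.2.2) (fun h => ?_) hΔ hΔ' R R'
  refine k (φ.a * φ'.b' - φ.b * φ'.a') ?_ ?_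
  · linear_combination (-(φ.a * v 0 + φ.b * v 1)) * d₂ - (φ'.a' * v 0 + φ'.b' * v 1) * h
  · linear_combination (-(φ.a * w 0 + φ.b * w 1)) * d₂ - (φ'.a' * w 0 + φ'.b' * w 1) * h

end Pool.Agent.MP_c1891a_nt.H43
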